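import Mathlib

/-! # a set of numbers with free ternary digits at a positive proportion of the places has positive dimension -/

set_option autoImplicit false

open Finset NNReal ENNReal

namespace Pool.Agent.W2helper73.WG

/-- the ternary digits: free (from `b`) at the places in `Fr`, fixed (from `c`) at the others -/
noncomputable def dig (Fr : ℕ → Prop) [DecidablePred Fr] (c : ℕ → Fin 3) (b : ℕ → Fin 2) : ℕ → Fin 3 :=
  fun i => if Fr i then Fin.castLE (by norm_num) (b (Nat.count Fr i)) else c i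

theorem dig_le (Fr : ℕ → Prop) [DecidablePred Fr] (c : ℕ → Fin 3) (hc : ∀ i, (c i : ℕ) ≤ 1)
    (b : ℕ → Fin 2) (i : ℕ) : (dig Fr c b i : ℕ) ≤ 1 := by
  unfold dig
  split_ifs with h
  · simp only [Fin.val_castLE]
    omega
  · exact hc i

/-- digits at most `1` give a number at most `1/2` -/
theorem ofDigits_le_half (w : ℕ → Fin 3) (hw : ∀ i, (w i : ℕ) ≤ 1) : Real.ofDigits w ≤ 1 / 2 := by
  have h1 : Real.ofDigits (fun i => (⟨2 * (w i : ℕ), by have := hw i; omega⟩ : Fin 3)) ≤ 1 :=
    Real.ofDigits_le_one _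
  have h2 : Real.ofDigits (fun i => (⟨2 * (w i : ℕ), by have := hw i; omega⟩ : Fin 3)) =
      2 * Real.ofDigits w := by
    unfold Real.ofDigits
    rw [← Summable.tsum_mul_left _ Real.summable_ofDigitsTerm]
    congr 1
    ext i
    unfold Real.ofDigitsTerm
    simp only
    push_cast
    ring
  rw [h2] at h1
  linarith

/-- two digit sequences (digits `0`, `1`) which differ first at place `p` -/
theorem ofDigits_sep (w w' : ℕ → Fin 3) (hw : ∀ i, (w i : ℕ) ≤ 1) (hw' : ∀ i, (w' i : ℕ) ≤ 1) (p : ℕ)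
    (heq : ∀ i < p, w i = w' i) (hne : w p ≠ w' p) :
    1 / (2 * (3 : ℝ) ^ (p + 1)) ≤ |Real.ofDigits w - Real.ofDigits w'| := by
  have key : ∀ w w' : ℕ → Fin 3, (∀ i, (w i : ℕ) ≤ 1) → (∀ i, (w' i : ℕ) ≤ 1) → (∀ i < p, w i = w' i) →
      (w p : ℕ) < (w' p : ℕ) → 1 / (2 * (3 : ℝ) ^ (p + 1)) ≤ Real.ofDigits w' - Real.ofDigits w := by
    intro w w' hw hw' heq hlt
    rw [Real.ofDigits_eq_sum_add_ofDigits w (p + 1), Real.ofDigits_eq_sum_add_ofDigits w' (p + 1),
      Finset.sum_range_succ, Finset.sum_range_succ]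
    have h1 : ∑ i ∈ Finset.range p, Real.ofDigitsTerm w i = ∑ i ∈ Finset.range p, Real.ofDigitsTerm w' i :=
      Finset.sum_congr rfl fun i hi => by
        simp [Real.ofDigitsTerm, heq i (Finset.mem_range.mp hi)]
    have h2 := ofDigits_le_half (fun i => w (i + (p + 1))) (fun i => hw _)
    have h3 := Real.ofDigits_nonneg (fun i => w' (i + (p + 1)))
    have h4 : (w p : ℕ) = 0 := by have := hw' p; omega
    have h5 : (w' p : ℕ) = 1 := by have := hw' p; omega
    have h6 : Real.ofDigitsTerm w p = 0 := by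
      unfold Real.ofDigitsTerm
      rw [h4]; simp
    have h7 : Real.ofDigitsTerm w' p = ((3 : ℝ) ^ (p + 1))⁻¹ := by
      unfold Real.ofDigitsTerm
      rw [h5]; simp
    rw [h1, h6, h7]
    have h8 : (0 : ℝ) < ((3 : ℝ) ^ (p + 1))⁻¹ := by positivity
    have h9 : 1 / (2 * (3 : ℝ) ^ (p + 1)) = ((3 : ℝ) ^ (p + 1))⁻¹ / 2 := by
      field_simp
    rw [h9]
    push_cast
    have h10 : ((3 : ℝ) ^ (p + 1))⁻¹ * Real.ofDigits (fun i => w (i + (p + 1))) ≤
        ((3 : ℝ) ^ (p + 1))⁻¹ * (1 / 2) := mul_le_mul_of_nonneg_left h2 h8.le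
    have h11 : 0 ≤ ((3 : ℝ) ^ (p + 1))⁻¹ * Real.ofDigits (fun i => w' (i + (p + 1))) :=
      mul_nonneg h8.le h3
    linarith
  rcases lt_trichotomy (w p : ℕ) (w' p : ℕ) with h | h | h
  · rw [abs_sub_comm]
    exact (key w w' hw hw' heq h).trans (le_abs_self _)
  · exact absurd (Fin.ext h) hne
  · exact (key w' w hw' hw (fun i hi => (heq i hi).symm) h).trans (le_abs_self _)

theorem holder (Fr : ℕ → Prop) [DecidablePred Fr] (c : ℕ → Fin 3) (hc : ∀ i, (c i : ℕ) ≤ 1)
    (C : ℕ) (hC : 1 ≤ C) (hcount : ∀ i, i < Nat.count Fr (C * (i + 1))) (b b' : ℕ → Fin 2) :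
    |Real.ofDigits b - Real.ofDigits b'| ≤
      4 * |Real.ofDigits (dig Fr c b) - Real.ofDigits (dig Fr c b')| ^ ((1 : ℝ) / (2 * C)) := by
  classical
  by_cases hbb : b = b'
  · subst hbb
    simp only [sub_self, abs_zero]
    positivity
  · have hex : ∃ j, b j ≠ b' j := by
      by_contra h
      push Not at h
      exact hbb (funext h)
    set j := Nat.find hex with hj
    have hj1 : b j ≠ b' j := Nat.find_spec hex
    have hj2 : ∀ i < j, b i = b' i := by
      intro i hi
      have := Nat.find_min hex hi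
      push Not at this
      exact this
    have hinf : ∀ n : ℕ, ∃ p, Fr p ∧ Nat.count Fr p = n ∧ p < C * (n + 1) := by
      intro n
      have h1 := hcount n
      have h2 := Nat.nth_lt_of_lt_count h1
      refine ⟨Nat.nth Fr n, ?_, ?_, h2⟩
      · apply Nat.nth_mem
        intro hf
        have h3 : Nat.count Fr (C * (n + 1)) ≤ hf.toFinset.card := by
          rw [Nat.count_eq_card_filter_range]
          apply Finset.card_le_card
          intro x hx
          rw [Finset.mem_filter] at hx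
          exact (Set.Finite.mem_toFinset hf).mpr hx.2
        omega
      · apply Nat.count_nth
        intro hf
        have h3 : Nat.count Fr (C * (n + 1)) ≤ hf.toFinset.card := by
          rw [Nat.count_eq_card_filter_range]
          apply Finset.card_le_card
          intro x hx
          rw [Finset.mem_filter] at hx
          exact (Set.Finite.mem_toFinset hf).mpr hx.2
        omega
    obtain ⟨p, hp1, hp2, hp3⟩ := hinf j
    have h1 : ∀ i < p, dig Fr c b i = dig Fr c b' i := by
      intro i hi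
      unfold dig
      split_ifs with h
      · have h2 : Nat.count Fr i < j := by
          rw [← hp2]
          exact Nat.count_strict_mono h hi
        rw [hj2 _ h2]
      · rfl
    have h2 : dig Fr c b p ≠ dig Fr c b' p := by
      unfold dig
      rw [if_pos hp1, if_pos hp1, hp2]
      intro h
      apply hj1
      have := congrArg Fin.val h
      simp only [Fin.val_castLE] at this
      exact Fin.ext this
    have h3 := ofDigits_sep _ _ (dig_le Fr c hc b) (dig_le Fr c hc b') p h1 h2
    have h4 : |Real.ofDigits b - Real.ofDigits b'| ≤ ((2 : ℝ) ^ j)⁻¹ := by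
      have := Real.abs_ofDigits_sub_ofDigits_le (n := j) (x := b) (y := b') hj2
      exact_mod_cast this
    refine h4.trans ?_
    have hC0 : (0 : ℝ) < C := by exact_mod_cast hC
    have h5 : (1 / (2 * (3 : ℝ) ^ (C * (j + 1)))) ^ ((1 : ℝ) / (2 * C)) ≤
        |Real.ofDigits (dig Fr c b) - Real.ofDigits (dig Fr c b')| ^ ((1 : ℝ) / (2 * C)) := by
      apply Real.rpow_le_rpow (by positivity) _ (by positivity)
      refine le_trans ?_ h3
      apply one_div_le_one_div_of_le (by positivity)
      apply mul_le_mul_of_nonneg_left _ (by norm_num)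
      exact pow_le_pow_right₀ (by norm_num) (by omega)
    have h6 : ((2 : ℝ) ^ (j + 2))⁻¹ ≤ (1 / (2 * (3 : ℝ) ^ (C * (j + 1)))) ^ ((1 : ℝ) / (2 * C)) := by
      rw [Real.div_rpow (by norm_num) (by positivity), Real.one_rpow, ← one_div]
      apply one_div_le_one_div_of_le (by positivity)
      rw [Real.mul_rpow (by norm_num) (by positivity)]
      have h7 : (2 : ℝ) ^ ((1 : ℝ) / (2 * C)) ≤ 2 ^ (1 : ℝ) := by
        apply Real.rpow_le_rpow_of_exponent_le (by norm_num)
        rw [div_le_one (by positivity)]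
        have : (1 : ℝ) ≤ C := by exact_mod_cast hC
        linarith
      rw [Real.rpow_one] at h7
      have h8 : ((3 : ℝ) ^ (C * (j + 1))) ^ ((1 : ℝ) / (2 * C)) ≤ 2 ^ (j + 1) := by
        rw [← Real.rpow_natCast (3 : ℝ), ← Real.rpow_mul (by norm_num)]
        have h9 : ((C * (j + 1) : ℕ) : ℝ) * ((1 : ℝ) / (2 * C)) = (1 / 2 : ℝ) * ((j + 1 : ℕ) : ℝ) := by
          push_cast
          field_simp
        rw [h9, Real.rpow_mul (by norm_num), Real.rpow_natCast]
        apply pow_le_pow_left₀ (by positivity)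
        rw [← Real.sqrt_eq_rpow]
        rw [Real.sqrt_le_left (by norm_num)]
        norm_num
      calc (2 : ℝ) ^ ((1 : ℝ) / (2 * C)) * ((3 : ℝ) ^ (C * (j + 1))) ^ ((1 : ℝ) / (2 * C))
          ≤ 2 * 2 ^ (j + 1) := by
            apply mul_le_mul h7 h8 (by positivity) (by norm_num)
        _ = 2 ^ (j + 2) := by ring
    have h7 : ((2 : ℝ) ^ j)⁻¹ = 4 * ((2 : ℝ) ^ (j + 2))⁻¹ := by
      rw [pow_add]
      field_simp
      norm_num
    rw [h7]
    apply mul_le_mul_of_nonneg_left (h6.trans h5) (by norm_num)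

theorem dim_pos (Fr : ℕ → Prop) [DecidablePred Fr] (c : ℕ → Fin 3) (hc : ∀ i, (c i : ℕ) ≤ 1)
    (C : ℕ) (hC : 1 ≤ C) (hcount : ∀ i, i < Nat.count Fr (C * (i + 1))) :
    0 < dimH (Set.range (fun b : ℕ → Fin 2 => Real.ofDigits (dig Fr c b))) := by
  classical
  set K : Set ℝ := Set.range (fun b : ℕ → Fin 2 => Real.ofDigits (dig Fr c b)) with hK
  set g : ℝ → ℝ := fun x => if h : ∃ b : ℕ → Fin 2, Real.ofDigits (dig Fr c b) = x then
    Real.ofDigits (Classical.choose h) else 0 with hg
  set s : ℝ≥0 := ⟨(1 : ℝ) / (2 * C), by positivity⟩ with hs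
  have hs0 : 0 < s := by
    rw [← NNReal.coe_pos]
    change (0 : ℝ) < 1 / (2 * C)
    have : (0 : ℝ) < C := by exact_mod_cast hC
    positivity
  have hgb : ∀ b : ℕ → Fin 2, g (Real.ofDigits (dig Fr c b)) = Real.ofDigits b := by
    intro b
    have hex : ∃ b' : ℕ → Fin 2, Real.ofDigits (dig Fr c b') = Real.ofDigits (dig Fr c b) := ⟨b, rfl⟩
    have h1 : g (Real.ofDigits (dig Fr c b)) = Real.ofDigits (Classical.choose hex) := by
      rw [hg]
      simp only
      rw [dif_pos hex]
    rw [h1]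
    have h2 := Classical.choose_spec hex
    have h3 := holder Fr c hc C hC hcount (Classical.choose hex) b
    rw [h2, sub_self, abs_zero, Real.zero_rpow (by
      have : (0 : ℝ) < C := by exact_mod_cast hC
      positivity), mul_zero] at h3
    have h4 := abs_nonneg (Real.ofDigits (Classical.choose hex) - Real.ofDigits b)
    have h5 : |Real.ofDigits (Classical.choose hex) - Real.ofDigits b| = 0 := le_antisymm h3 h4
    rw [abs_eq_zero] at h5
    linarith
  have hH : HolderOnWith 4 s g K := by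
    rintro x ⟨b, rfl⟩ y ⟨b', rfl⟩
    simp only
    rw [hgb, hgb, edist_dist, edist_dist, Real.dist_eq, Real.dist_eq]
    have h1 := holder Fr c hc C hC hcount b b'
    have h2 : ENNReal.ofReal (|Real.ofDigits (dig Fr c b) - Real.ofDigits (dig Fr c b')|) ^ (s : ℝ) =
        ENNReal.ofReal (|Real.ofDigits (dig Fr c b) - Real.ofDigits (dig Fr c b')| ^ (s : ℝ)) := by
      apply ENNReal.ofReal_rpow_of_nonneg (abs_nonneg _)
      exact s.coe_nonneg
    rw [h2]
    have h3 : ((4 : ℝ≥0) : ℝ≥0∞) = ENNReal.ofReal 4 := by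
      rw [ENNReal.ofReal]
      congr 1
      simp
    rw [h3, ← ENNReal.ofReal_mul (by norm_num)]
    apply ENNReal.ofReal_le_ofReal
    exact h1
  have h1 := hH.dimH_image_le hs0
  have h2 : Set.Ioo (0 : ℝ) 1 ⊆ g '' K := by
    intro y hy
    refine ⟨Real.ofDigits (dig Fr c (Real.digits y 2)), ⟨_, rfl⟩, ?_⟩
    rw [hgb]
    exact Real.ofDigits_digits (by norm_num) ⟨hy.1.le, hy.2⟩
  have h3 : dimH (Set.Ioo (0 : ℝ) 1) = 1 := by
    have := Real.dimH_of_nonempty_interior (s := Set.Ioo (0 : ℝ) 1) (by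
      rw [interior_Ioo]
      exact ⟨1 / 2, by norm_num, by norm_num⟩)
    rw [this]
    simp
  have h4 : (1 : ℝ≥0∞) ≤ dimH K / s := by
    rw [← h3]
    exact (dimH_mono h2).trans h1
  by_contra h
  rw [not_lt, nonpos_iff_eq_zero] at h
  rw [h, ENNReal.zero_div] at h4
  exact absurd h4 (by norm_num)

end Pool.Agent.W2helper73.WG
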