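import Pool.Agent.TH181.MX.Sum

/-! # quadratic Gauss sums to the modulus `9^m` and the sums near `a / 9^m` -/

set_option autoImplicit false

open Finset

namespace Pool.Agent.W2helper73.WG

open Pool.Agent.W928.MW (e sm e_add e_norm sm_le)
open Pool.Agent.TH181.MW (e_zero)

theorem e_int (n : ℤ) : e (n : ℝ) = 1 := by
  unfold Pool.Agent.W928.MW.e
  have : (2 * (Real.pi : ℂ) * Complex.I * (((n : ℤ) : ℝ) : ℂ)) = (n : ℂ) * (2 * (Real.pi : ℂ) * Complex.I) := by
    push_cast; ring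
  rw [this]
  exact Complex.exp_int_mul_two_pi_mul_I n

theorem e_add_int (x : ℝ) (n : ℤ) : e (x + n) = e x := by
  rw [e_add, e_int, mul_one]

/-- the sum of the three cube roots of unity -/
theorem e_three (b : ℤ) : ∑ z ∈ range 3, e ((b : ℝ) * z / 3) = if (3 : ℤ) ∣ b then 3 else 0 := by
  split_ifs with h
  · obtain ⟨c, rfl⟩ := h
    have : ∀ z ∈ range 3, e ((((3 * c : ℤ) : ℝ)) * z / 3) = 1 := by
      intro z _
      have h1 : (((3 * c : ℤ) : ℝ)) * z / 3 = ((c * (z : ℤ) : ℤ) : ℝ) := by push_cast; ring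
      rw [h1, e_int]
    rw [Finset.sum_congr rfl this]
    simp
  · set w : ℂ := e ((b : ℝ) / 3) with hw
    have h1 : ∀ z : ℕ, e ((b : ℝ) * z / 3) = w ^ z := by
      intro z
      induction z with
      | zero => simp [e_zero]
      | succ z ih =>
        rw [pow_succ, ← ih, hw, ← e_add]
        congr 1
        push_cast
        ring
    have h3 : w ^ 3 = 1 := by
      rw [← h1]
      have : (b : ℝ) * ((3 : ℕ) : ℝ) / 3 = ((b : ℤ) : ℝ) := by push_cast; ring
      rw [this, e_int]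
    have hne : w ≠ 1 := by
      intro h2
      rw [hw] at h2
      unfold Pool.Agent.W928.MW.e at h2
      rw [Complex.exp_eq_one_iff] at h2
      obtain ⟨n, hn⟩ := h2
      have h4 : ((b : ℝ) / 3 : ℝ) = (n : ℝ) := by
        have h5 : (2 * (Real.pi : ℂ) * Complex.I) ≠ 0 := Complex.two_pi_I_ne_zero
        have h6 : (2 * (Real.pi : ℂ) * Complex.I) * (((b : ℝ) / 3 : ℝ) : ℂ) =
            (2 * (Real.pi : ℂ) * Complex.I) * ((n : ℝ) : ℂ) := by
          rw [hn]; push_cast; ring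
        exact_mod_cast mul_left_cancel₀ h5 h6
      apply h
      refine ⟨n, ?_⟩
      have h7 : (b : ℝ) = ((3 * n : ℤ) : ℝ) := by
        push_cast
        linarith
      exact_mod_cast h7
    have h5 : (w - 1) * ∑ z ∈ range 3, w ^ z = 0 := by
      rw [mul_geom_sum, h3, sub_self]
    rw [Finset.sum_congr rfl (fun z _ => h1 z)]
    rcases mul_eq_zero.mp h5 with h6 | h6
    · exact absurd (sub_eq_zero.mp h6) hne
    · exact h6

/-- `∑_{x mod 9^m} e(a x^2 / 9^m) = 3^m` -/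
theorem gauss (a : ℤ) (ha : ¬ (3 : ℤ) ∣ a) (m : ℕ) :
    ∑ x ∈ range (9 ^ m), e ((a : ℝ) * (x : ℝ) ^ 2 / 9 ^ m) = 3 ^ m := by
  induction m with
  | zero => simp [e_zero]
  | succ m ih =>
    have hq : (0 : ℝ) < 9 ^ m := by positivity
    -- x = y + 3 * 9^m * z
    have h1 : ∑ x ∈ range (9 ^ (m + 1)), e ((a : ℝ) * (x : ℝ) ^ 2 / 9 ^ (m + 1)) =
        ∑ y ∈ range (3 * 9 ^ m), ∑ z ∈ range 3,
          e ((a : ℝ) * ((y + 3 * 9 ^ m * z : ℕ) : ℝ) ^ 2 / 9 ^ (m + 1)) := by
      rw [← Finset.sum_product']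
      symm
      apply Finset.sum_bij (fun (p : ℕ × ℕ) _ => p.1 + 3 * 9 ^ m * p.2)
      · rintro ⟨y, z⟩ hp
        rw [Finset.mem_product, Finset.mem_range, Finset.mem_range] at hp
        rw [Finset.mem_range]
        simp only at hp ⊢
        have h2 : z ≤ 2 := by omega
        have h3 : 3 * 9 ^ m * z ≤ 3 * 9 ^ m * 2 := Nat.mul_le_mul_left _ h2
        rw [pow_succ]
        omega
      · rintro ⟨y, z⟩ hp ⟨y', z'⟩ hp' h
        rw [Finset.mem_product, Finset.mem_range, Finset.mem_range] at hp hp'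
        simp only at hp hp' h
        have hpos : 0 < 3 * 9 ^ m := by positivity
        have h2 : (y + 3 * 9 ^ m * z) % (3 * 9 ^ m) = y := by
          rw [Nat.add_mul_mod_self_left, Nat.mod_eq_of_lt hp.1]
        have h3 : (y' + 3 * 9 ^ m * z') % (3 * 9 ^ m) = y' := by
          rw [Nat.add_mul_mod_self_left, Nat.mod_eq_of_lt hp'.1]
        have h4 : y = y' := by rw [← h2, ← h3, h]
        subst h4
        have h5 : 3 * 9 ^ m * z = 3 * 9 ^ m * z' := by omega
        have h6 := Nat.eq_of_mul_eq_mul_left hpos h5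
        rw [h6]
      · intro x hx
        rw [Finset.mem_range] at hx
        have hpos : 0 < 3 * 9 ^ m := by positivity
        refine ⟨(x % (3 * 9 ^ m), x / (3 * 9 ^ m)), ?_, ?_⟩
        · rw [Finset.mem_product, Finset.mem_range, Finset.mem_range]
          refine ⟨Nat.mod_lt _ hpos, ?_⟩
          simp only
          rw [Nat.div_lt_iff_lt_mul hpos]
          rw [pow_succ] at hx
          omega
        · simp only
          exact Nat.mod_add_div _ _
      · rintro ⟨y, z⟩ _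
        rfl
    rw [h1]
    have h2 : ∀ y ∈ range (3 * 9 ^ m), ∑ z ∈ range 3,
          e ((a : ℝ) * ((y + 3 * 9 ^ m * z : ℕ) : ℝ) ^ 2 / 9 ^ (m + 1)) =
        if 3 ∣ y then 3 * e ((a : ℝ) * (y : ℝ) ^ 2 / 9 ^ (m + 1)) else 0 := by
      intro y _
      have h3 : ∀ z ∈ range 3, e ((a : ℝ) * ((y + 3 * 9 ^ m * z : ℕ) : ℝ) ^ 2 / 9 ^ (m + 1)) =
          e ((a : ℝ) * (y : ℝ) ^ 2 / 9 ^ (m + 1)) * e (((2 * a * y : ℤ) : ℝ) * z / 3) := by
        intro z _
        rw [← e_add, ← e_add_int _ (-(a * 9 ^ m * z ^ 2))]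
        congr 1
        push_cast
        rw [pow_succ]
        field_simp
        ring
      rw [Finset.sum_congr rfl h3, ← Finset.mul_sum, e_three]
      have h4 : (3 : ℤ) ∣ 2 * a * y ↔ 3 ∣ y := by
        constructor
        · intro h
          have hp : Prime (3 : ℤ) := Int.prime_three
          rcases hp.dvd_or_dvd h with h5 | h5
          · rcases hp.dvd_or_dvd h5 with h6 | h6
            · norm_num at h6
            · exact absurd h6 ha
          · exact_mod_cast h5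
        · intro h
          exact Dvd.dvd.mul_left (by exact_mod_cast h) _
      by_cases h5 : 3 ∣ y
      · rw [if_pos (h4.mpr h5), if_pos h5]; ring
      · rw [if_neg (fun h => h5 (h4.mp h)), if_neg h5, mul_zero]
    rw [Finset.sum_congr rfl h2, ← Finset.sum_filter]
    have h3 : ∑ y ∈ (range (3 * 9 ^ m)).filter (fun y => 3 ∣ y),
        3 * e ((a : ℝ) * (y : ℝ) ^ 2 / 9 ^ (m + 1)) =
        ∑ w ∈ range (9 ^ m), 3 * e ((a : ℝ) * (w : ℝ) ^ 2 / 9 ^ m) := by
      symm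
      apply Finset.sum_bij (fun (w : ℕ) _ => 3 * w)
      · intro w hw
        rw [Finset.mem_range] at hw
        rw [Finset.mem_filter, Finset.mem_range]
        exact ⟨by omega, ⟨w, rfl⟩⟩
      · intro w _ w' _ h
        have h' : 3 * w = 3 * w' := h
        omega
      · intro y hy
        rw [Finset.mem_filter, Finset.mem_range] at hy
        obtain ⟨hy1, w, rfl⟩ := hy
        exact ⟨w, by rw [Finset.mem_range]; omega, rfl⟩
      · intro w _
        congr 2
        push_cast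
        rw [pow_succ]
        field_simp
        ring
    rw [h3, ← Finset.mul_sum, ih, pow_succ]
    ring

/-- the complete sum over any period -/
theorem gauss_Icc (a : ℤ) (ha : ¬ (3 : ℤ) ∣ a) (m : ℕ) :
    ∑ x ∈ Icc (1 : ℕ) (9 ^ m), e ((a : ℝ) * (x : ℝ) ^ 2 / 9 ^ m) = 3 ^ m := by
  rw [← gauss a ha m]
  have h1 : (9 : ℕ) ^ m = (9 ^ m - 1) + 1 := by
    have : 0 < 9 ^ m := by positivity
    omega
  have h2 : Icc 1 (9 ^ m) = Ico 1 (9 ^ m + 1) := by
    ext x; rw [Finset.mem_Icc, Finset.mem_Ico]; omega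
  rw [h2, Finset.sum_Ico_succ_top (by omega), Finset.range_eq_Ico]
  rw [Finset.sum_eq_sum_Ico_succ_bot (a := 0) (by positivity), add_comm]
  congr 1
  push_cast
  have h3 : (a : ℝ) * ((9 : ℝ) ^ m) ^ 2 / 9 ^ m = ((a * 9 ^ m : ℤ) : ℝ) := by
    push_cast
    field_simp
  rw [h3, e_int]
  simp [e_zero]

theorem e_lip1 (x : ℝ) : ‖e x - 1‖ ≤ 2 * Real.pi * |x| := by
  unfold Pool.Agent.W928.MW.e
  have h : (2 * (Real.pi : ℂ) * Complex.I * (x : ℂ)) = Complex.I * ((2 * Real.pi * x : ℝ) : ℂ) := by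
    push_cast; ring
  rw [h]
  refine (Real.norm_exp_I_mul_ofReal_sub_one_le).trans ?_
  rw [Real.norm_eq_abs, abs_mul, abs_mul, abs_of_pos Real.pi_pos]
  norm_num

theorem e_lip2 (x y : ℝ) : ‖e x - e y‖ ≤ 2 * Real.pi * |x - y| := by
  have h1 : e x - e y = e y * (e (x - y) - 1) := by
    rw [mul_sub, ← e_add, mul_one]
    congr 2
    ring
  rw [h1, norm_mul, e_norm, one_mul]
  exact e_lip1 _

/-- lower bound for the sum near `a / 9^m` -/
theorem lower (a : ℤ) (ha : ¬ (3 : ℤ) ∣ a) (m M : ℕ) (β : ℝ)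
    (hβ : |β| * ((M * 9 ^ m : ℕ) : ℝ) ^ 2 ≤ 1 / 100) :
    (9 / 10) * ((M : ℝ) * 3 ^ m) - 9 ^ m ≤ ‖sm 2 (M * 9 ^ m) ((a : ℝ) / 9 ^ m + β) 0‖ := by
  rcases Nat.eq_zero_or_pos M with hM | hM
  · subst hM
    have : (0 : ℝ) ≤ ‖sm 2 (0 * 9 ^ m) ((a : ℝ) / 9 ^ m + β) 0‖ := norm_nonneg _
    push_cast
    have h2 : (0 : ℝ) < 9 ^ m := by positivity
    linarith
  set q : ℕ := 9 ^ m with hq
  have hq1 : 1 ≤ q := Nat.one_le_pow _ _ (by norm_num)
  have hq0 : (0 : ℝ) < (q : ℝ) := by exact_mod_cast hq1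
  have hM0 : (1 : ℝ) ≤ (M : ℝ) := by exact_mod_cast hM
  have hqr : (q : ℝ) = 9 ^ m := by rw [hq]; push_cast; rfl
  -- blocks
  have h1 : sm 2 (M * q) ((a : ℝ) / 9 ^ m + β) 0 =
      ∑ j ∈ range M, ∑ s ∈ Icc 1 q, e ((a : ℝ) * (s : ℝ) ^ 2 / 9 ^ m) * e (β * ((j * q + s : ℕ) : ℝ) ^ 2) := by
    unfold Pool.Agent.W928.MW.sm
    rw [← Finset.sum_product']
    symm
    apply Finset.sum_bij (fun (p : ℕ × ℕ) _ => p.1 * q + p.2)
    · rintro ⟨j, s⟩ hp
      rw [Finset.mem_product, Finset.mem_range, Finset.mem_Icc] at hp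
      rw [Finset.mem_Icc]
      simp only at hp ⊢
      have h2 : (j + 1) * q ≤ M * q := Nat.mul_le_mul_right _ (by omega)
      constructor
      · omega
      · calc j * q + s ≤ j * q + q := by omega
          _ = (j + 1) * q := by ring
          _ ≤ M * q := h2
    · rintro ⟨j, s⟩ hp ⟨j', s'⟩ hp' h
      rw [Finset.mem_product, Finset.mem_range, Finset.mem_Icc] at hp hp'
      simp only at hp hp' h
      have h3 : j = j' := by
        rcases lt_trichotomy j j' with h4 | h4 | h4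
        · exfalso
          have : (j + 1) * q ≤ j' * q := Nat.mul_le_mul_right _ (by omega)
          have h5 : (j + 1) * q = j * q + q := by ring
          omega
        · exact h4
        · exfalso
          have : (j' + 1) * q ≤ j * q := Nat.mul_le_mul_right _ (by omega)
          have h5 : (j' + 1) * q = j' * q + q := by ring
          omega
      subst h3
      have : s = s' := by omega
      rw [this]
    · intro n hn
      rw [Finset.mem_Icc] at hn
      refine ⟨((n - 1) / q, (n - 1) % q + 1), ?_, ?_⟩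
      · rw [Finset.mem_product, Finset.mem_range, Finset.mem_Icc]
        have h2 := Nat.mod_lt (n - 1) hq1
        refine ⟨?_, by omega, by simp only; omega⟩
        simp only
        rw [Nat.div_lt_iff_lt_mul hq1]
        omega
      · simp only
        have h2 := Nat.div_add_mod (n - 1) q
        have h3 : (n - 1) / q * q = q * ((n - 1) / q) := mul_comm _ _
        omega
    · rintro ⟨j, s⟩ _
      simp only
      rw [← e_add, ← e_add_int _ (a * (j ^ 2 * q + 2 * j * s))]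
      congr 1
      have hq9 : (9 : ℝ) ^ m ≠ 0 := by positivity
      push_cast
      rw [hqr]
      field_simp
      ring
  -- approximation on each block
  have h2 : ∀ j ∈ range M, ‖(∑ s ∈ Icc 1 q, e ((a : ℝ) * (s : ℝ) ^ 2 / 9 ^ m) *
      e (β * ((j * q + s : ℕ) : ℝ) ^ 2)) - 3 ^ m * e (β * ((j * q : ℕ) : ℝ) ^ 2)‖ ≤
      (q : ℝ) * (2 * Real.pi * (|β| * (3 * ((M * q : ℕ) : ℝ) * q))) := by
    intro j hj
    rw [Finset.mem_range] at hj
    rw [← gauss_Icc a ha m, ← hq, Finset.sum_mul, ← Finset.sum_sub_distrib]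
    refine (norm_sum_le _ _).trans ?_
    calc ∑ s ∈ Icc 1 q, ‖e ((a : ℝ) * (s : ℝ) ^ 2 / 9 ^ m) * e (β * ((j * q + s : ℕ) : ℝ) ^ 2) -
          e ((a : ℝ) * (s : ℝ) ^ 2 / 9 ^ m) * e (β * ((j * q : ℕ) : ℝ) ^ 2)‖
        ≤ ∑ _s ∈ Icc 1 q, (2 * Real.pi * (|β| * (3 * ((M * q : ℕ) : ℝ) * q))) := by
          apply Finset.sum_le_sum
          intro s hs
          rw [Finset.mem_Icc] at hs
          rw [← mul_sub, norm_mul, e_norm, one_mul]
          refine (e_lip2 _ _).trans ?_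
          apply mul_le_mul_of_nonneg_left _ (by positivity)
          rw [← mul_sub, abs_mul]
          apply mul_le_mul_of_nonneg_left _ (abs_nonneg _)
          have hs1 : (s : ℝ) ≤ q := by exact_mod_cast hs.2
          have hs0 : (0 : ℝ) ≤ s := by positivity
          have hj1 : (j : ℝ) ≤ M := by exact_mod_cast hj.le
          have hj0 : (0 : ℝ) ≤ j := by positivity
          push_cast
          have h3 : ((j : ℝ) * q + s) ^ 2 - ((j : ℝ) * q) ^ 2 = 2 * (j * q) * s + s * s := by ring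
          rw [h3, abs_of_nonneg (by positivity)]
          have h4 : 2 * ((j : ℝ) * q) * s ≤ 2 * (M * q) * q := by gcongr
          have h5 : (s : ℝ) * s ≤ (1 * q) * q := by
            rw [one_mul]; gcongr
          have h6 : (1 * (q : ℝ)) * q ≤ (M * q) * q := by gcongr
          linarith
      _ = _ := by
          rw [Finset.sum_const, Nat.card_Icc, nsmul_eq_mul]
          norm_num
  have h3 : ‖sm 2 (M * q) ((a : ℝ) / 9 ^ m + β) 0 - ∑ j ∈ range M, 3 ^ m * e (β * ((j * q : ℕ) : ℝ) ^ 2)‖ ≤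
      (M : ℝ) * ((q : ℝ) * (2 * Real.pi * (|β| * (3 * ((M * q : ℕ) : ℝ) * q)))) := by
    rw [h1, ← Finset.sum_sub_distrib]
    refine (norm_sum_le _ _).trans ((Finset.sum_le_sum h2).trans (le_of_eq ?_))
    rw [Finset.sum_const, Finset.card_range, nsmul_eq_mul]
  have hpi : Real.pi < 3.15 := Real.pi_lt_d2
  have hpi0 := Real.pi_pos
  have hE : (M : ℝ) * ((q : ℝ) * (2 * Real.pi * (|β| * (3 * ((M * q : ℕ) : ℝ) * q)))) ≤ q := by
    have h4 : (M : ℝ) * ((q : ℝ) * (2 * Real.pi * (|β| * (3 * ((M * q : ℕ) : ℝ) * q)))) =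
        (6 * Real.pi) * (|β| * ((M * q : ℕ) : ℝ) ^ 2) * q := by
      push_cast; ring
    rw [h4]
    have h5 : (6 * Real.pi) * (|β| * ((M * q : ℕ) : ℝ) ^ 2) ≤ (6 * 3.15) * (1 / 100) := by
      gcongr
    have h6 : (6 * Real.pi) * (|β| * ((M * q : ℕ) : ℝ) ^ 2) ≤ 1 := h5.trans (by norm_num)
    calc _ ≤ 1 * (q : ℝ) := mul_le_mul_of_nonneg_right h6 hq0.le
      _ = q := one_mul _
  have h4 : ‖(∑ j ∈ range M, 3 ^ m * e (β * ((j * q : ℕ) : ℝ) ^ 2)) - (M : ℂ) * 3 ^ m‖ ≤
      (1 / 10) * ((M : ℝ) * 3 ^ m) := by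
    have h5 : (∑ j ∈ range M, 3 ^ m * e (β * ((j * q : ℕ) : ℝ) ^ 2)) - (M : ℂ) * 3 ^ m =
        ∑ j ∈ range M, 3 ^ m * (e (β * ((j * q : ℕ) : ℝ) ^ 2) - 1) := by
      have : (M : ℂ) * 3 ^ m = ∑ _j ∈ range M, (3 : ℂ) ^ m := by
        rw [Finset.sum_const, Finset.card_range, nsmul_eq_mul]
      rw [this, ← Finset.sum_sub_distrib]
      apply Finset.sum_congr rfl
      intro j _
      ring
    rw [h5]
    refine (norm_sum_le _ _).trans ?_
    calc ∑ j ∈ range M, ‖(3 : ℂ) ^ m * (e (β * ((j * q : ℕ) : ℝ) ^ 2) - 1)‖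
        ≤ ∑ _j ∈ range M, (3 : ℝ) ^ m * (1 / 10) := by
          apply Finset.sum_le_sum
          intro j hj
          rw [Finset.mem_range] at hj
          rw [norm_mul, norm_pow]
          have h6 : ‖(3 : ℂ)‖ = 3 := by norm_num
          rw [h6]
          apply mul_le_mul_of_nonneg_left _ (by positivity)
          refine (e_lip1 _).trans ?_
          rw [abs_mul, abs_of_nonneg (show (0 : ℝ) ≤ ((j * q : ℕ) : ℝ) ^ 2 by positivity)]
          have h7 : ((j * q : ℕ) : ℝ) ^ 2 ≤ ((M * q : ℕ) : ℝ) ^ 2 := by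
            apply pow_le_pow_left₀ (by positivity)
            exact_mod_cast Nat.mul_le_mul_right q hj.le
          calc 2 * Real.pi * (|β| * ((j * q : ℕ) : ℝ) ^ 2)
              ≤ 2 * 3.15 * (|β| * ((M * q : ℕ) : ℝ) ^ 2) := by
                gcongr
            _ ≤ 2 * 3.15 * (1 / 100) := by gcongr
            _ ≤ 1 / 10 := by norm_num
      _ = _ := by
          rw [Finset.sum_const, Finset.card_range, nsmul_eq_mul]
          ring
  have h5 : ‖(M : ℂ) * 3 ^ m‖ = (M : ℝ) * 3 ^ m := by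
    rw [norm_mul, norm_pow, Complex.norm_natCast]
    norm_num
  have h6 : ‖(M : ℂ) * 3 ^ m‖ ≤ ‖sm 2 (M * q) ((a : ℝ) / 9 ^ m + β) 0‖ +
      ‖sm 2 (M * q) ((a : ℝ) / 9 ^ m + β) 0 - ∑ j ∈ range M, 3 ^ m * e (β * ((j * q : ℕ) : ℝ) ^ 2)‖ +
      ‖(∑ j ∈ range M, 3 ^ m * e (β * ((j * q : ℕ) : ℝ) ^ 2)) - (M : ℂ) * 3 ^ m‖ := by
    have h7 : (M : ℂ) * 3 ^ m = sm 2 (M * q) ((a : ℝ) / 9 ^ m + β) 0 -
        (sm 2 (M * q) ((a : ℝ) / 9 ^ m + β) 0 - ∑ j ∈ range M, 3 ^ m * e (β * ((j * q : ℕ) : ℝ) ^ 2)) -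
        ((∑ j ∈ range M, 3 ^ m * e (β * ((j * q : ℕ) : ℝ) ^ 2)) - (M : ℂ) * 3 ^ m) := by ring
    conv_lhs => rw [h7]
    refine (norm_sub_le _ _).trans ?_
    apply add_le_add_left
    exact norm_sub_le _ _
  rw [h5] at h6
  linarith [hqr]

end Pool.Agent.W2helper73.WG
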