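import Pool.Agent.TH181.MX.Sum

/-! # Weyl's inequality for quadratic sums -/

set_option autoImplicit false

open Finset

namespace Pool.Agent.W2helper73.WG

open Pool.Agent.W928.MW (e sm e_add e_norm sm_le)
open Pool.Agent.TH181.MW (LS weyl TT)
open Pool.Agent.TH181.MX (sum_all log_le)

/-- Weyl's inequality for `∑ e(t n^2)`, with no restriction on the size of `q` except `q ≤ K N^2`. -/
theorem weyl2 (K η : ℝ) (hK : 1 ≤ K) (hη : 0 < η) : ∃ C : ℝ, 0 < C ∧ ∀ N q : ℕ, 1 ≤ N → 1 ≤ q →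
    (q : ℝ) ≤ K * (N : ℝ) ^ 2 → ∀ (a : ℤ) (t : ℝ), IsCoprime a (q : ℤ) →
    |t - a / q| ≤ 1 / (q : ℝ) ^ 2 →
    ‖sm 2 N t 0‖ ^ 2 ≤ C * (N : ℝ) ^ η * ((N : ℝ) ^ 2 / q + N + q) := by
  obtain ⟨C0, hC0, hC⟩ := Pool.Agent.Helper112.divisor_bound (η / 2) (by positivity)
  obtain ⟨C1, hC1, hlog⟩ := log_le (η / 4) (by positivity)
  set C2 : ℝ := C1 * K ^ (η / 4) with hC2
  have hC2' : 0 < C2 := by positivity
  set C3 : ℝ := 2 * C0 * 2 ^ (η / 2) with hC3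
  have hC3' : 0 < C3 := by positivity
  refine ⟨6 + C3 * 4 * (39 + 3 * C2), by positivity, fun N q hN hq hqN a t hcop ht => ?_⟩
  have hN' : (1 : ℝ) ≤ (N : ℝ) := by exact_mod_cast hN
  have hN0 : (0 : ℝ) < (N : ℝ) := by linarith
  have hq' : (1 : ℝ) ≤ (q : ℝ) := by exact_mod_cast hq
  have hq0 : (0 : ℝ) < (q : ℝ) := by linarith
  set D : ℕ := ⌊C0 * (2 * (N : ℝ)) ^ (η / 2)⌋₊ with hD
  have hDb : ∀ n : ℕ, 1 ≤ n → n ≤ Nat.factorial 2 * N ^ (2 - 1) → n.divisors.card ≤ D := by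
    intro n hn hn2
    rw [hD]
    apply Nat.le_floor
    refine (hC n hn).trans ?_
    apply mul_le_mul_of_nonneg_left _ hC0.le
    apply Real.rpow_le_rpow (by positivity) _ (by positivity)
    have : n ≤ 2 * N := by simpa using hn2
    exact_mod_cast this
  have hDr : 2 * (D : ℝ) ≤ C3 * (N : ℝ) ^ (η / 2) := by
    have h1 : (D : ℝ) ≤ C0 * (2 * (N : ℝ)) ^ (η / 2) := Nat.floor_le (by positivity)
    rw [Real.mul_rpow (by norm_num) hN0.le] at h1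
    calc 2 * (D : ℝ) ≤ 2 * (C0 * (2 ^ (η / 2) * (N : ℝ) ^ (η / 2))) := by linarith
      _ = _ := by rw [hC3]; ring
  have hw := weyl 2 N 1 t 0
  have hs := sum_all 2 N q D le_rfl hq a hcop t ht hDb
  norm_num at hw hs
  have hX : 0 ≤ (N : ℝ) ^ 2 / q := by positivity
  have hNη : 1 ≤ (N : ℝ) ^ η := Real.one_le_rpow hN' hη.le
  have hNη2 : 1 ≤ (N : ℝ) ^ (η / 2) := Real.one_le_rpow hN' (by positivity)
  have hsplit : (N : ℝ) ^ η = (N : ℝ) ^ (η / 2) * (N : ℝ) ^ (η / 2) := by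
    rw [← Real.rpow_add hN0]; congr 1; ring
  have hlogq : 1 + Real.log q ≤ C2 * (N : ℝ) ^ (η / 2) := by
    refine (hlog q hq).trans ?_
    have h1 : (q : ℝ) ^ (η / 4) ≤ (K * (N : ℝ) ^ 2) ^ (η / 4) :=
      Real.rpow_le_rpow hq0.le hqN (by positivity)
    have h2 : (K * (N : ℝ) ^ 2) ^ (η / 4) = K ^ (η / 4) * (N : ℝ) ^ (η / 2) := by
      rw [Real.mul_rpow (by positivity) (by positivity), ← Real.rpow_natCast (N : ℝ) 2,
        ← Real.rpow_mul hN0.le]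
      congr 2
      push_cast
      ring
    rw [h2] at h1
    calc C1 * (q : ℝ) ^ (η / 4) ≤ C1 * (K ^ (η / 4) * (N : ℝ) ^ (η / 2)) :=
          mul_le_mul_of_nonneg_left h1 hC1.le
      _ = _ := by rw [hC2]; ring
  have hlog0 : 0 ≤ 1 + Real.log q := by
    have := Real.log_nonneg hq'
    linarith
  have hB : 39 * (N : ℝ) + 3 * q * (1 + Real.log q) ≤
      (39 + 3 * C2) * (N : ℝ) ^ (η / 2) * (N + q) := by
    have h1 : 3 * (q : ℝ) * (1 + Real.log q) ≤ 3 * q * (C2 * (N : ℝ) ^ (η / 2)) :=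
      mul_le_mul_of_nonneg_left hlogq (by positivity)
    have h2 : 39 * (N : ℝ) ≤ 39 * (N : ℝ) ^ (η / 2) * N := by nlinarith
    have h3 : 0 ≤ 39 * (N : ℝ) ^ (η / 2) * q := by positivity
    have h4 : 0 ≤ 3 * C2 * (N : ℝ) ^ (η / 2) * N := by positivity
    nlinarith
  have hA : (2 * (N : ℝ) + 1) / q + 1 ≤ 3 * (N / q) + 1 := by
    have : (2 * (N : ℝ) + 1) / q ≤ (3 * N) / q := by
      apply div_le_div_of_nonneg_right _ hq0.le
      linarith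
    have h2 : (3 * (N : ℝ)) / q = 3 * (N / q) := by ring
    linarith
  have hAB : ((2 * (N : ℝ) + 1) / q + 1) * (39 * (N : ℝ) + 3 * q * (1 + Real.log q)) ≤
      4 * ((39 + 3 * C2) * (N : ℝ) ^ (η / 2)) * ((N : ℝ) ^ 2 / q + N + q) := by
    calc ((2 * (N : ℝ) + 1) / q + 1) * (39 * (N : ℝ) + 3 * q * (1 + Real.log q))
        ≤ (3 * (N / q) + 1) * ((39 + 3 * C2) * (N : ℝ) ^ (η / 2) * (N + q)) := by
          apply mul_le_mul hA hB (by positivity) (by positivity)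
      _ = ((39 + 3 * C2) * (N : ℝ) ^ (η / 2)) * (3 * ((N : ℝ) ^ 2 / q) + 4 * N + q) := by
          field_simp
          ring
      _ ≤ ((39 + 3 * C2) * (N : ℝ) ^ (η / 2)) * (4 * ((N : ℝ) ^ 2 / q + N + q)) := by
          apply mul_le_mul_of_nonneg_left _ (by positivity)
          linarith
      _ = _ := by ring
  have hF : ‖sm 2 N t 0‖ ^ 2 ≤ 2 * (2 * (N : ℝ) + 1) + 2 * (D : ℝ) *
      (((2 * (N : ℝ) + 1) / q + 1) * (39 * (N : ℝ) + 3 * q * (1 + Real.log q))) := by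
    refine hw.trans (hs.trans (le_of_eq ?_))
    ring
  have hP : 0 ≤ (N : ℝ) ^ 2 / q + N + q := by positivity
  calc ‖sm 2 N t 0‖ ^ 2 ≤ 2 * (2 * (N : ℝ) + 1) + 2 * (D : ℝ) *
      (((2 * (N : ℝ) + 1) / q + 1) * (39 * (N : ℝ) + 3 * q * (1 + Real.log q))) := hF
    _ ≤ 6 * (N : ℝ) ^ η * ((N : ℝ) ^ 2 / q + N + q) + (C3 * (N : ℝ) ^ (η / 2)) *
        (4 * ((39 + 3 * C2) * (N : ℝ) ^ (η / 2)) * ((N : ℝ) ^ 2 / q + N + q)) := by
        apply add_le_add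
        · have h1 : 6 * (N : ℝ) ≤ 6 * (N : ℝ) ^ η * N := by nlinarith
          have h2 : 0 ≤ 6 * (N : ℝ) ^ η * ((N : ℝ) ^ 2 / q + q) := by positivity
          nlinarith
        · apply mul_le_mul hDr hAB (by positivity) (by positivity)
    _ = _ := by rw [hsplit]; ring

end Pool.Agent.W2helper73.WG
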