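import Pool.Agent.W2helper73.WG.Seq
import Pool.Agent.W2helper73.WG.Weyl2
import Pool.Agent.W2helper73.WG.Gauss

/-! # the growth exponent of the quadratic sums at the numbers with prescribed approximations -/

set_option autoImplicit false
set_option maxHeartbeats 4000000

open Finset

namespace Pool.Agent.W2helper73.WG

open Pool.Agent.W928.MW (e sm e_add e_norm sm_le)

theorem cop_three (a : ℤ) (ha : ¬ (3 : ℤ) ∣ a) (n : ℕ) : IsCoprime a (((3 ^ n : ℕ) : ℤ)) := by
  push_cast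
  apply IsCoprime.pow_right
  have hp : Prime (3 : ℤ) := Int.prime_three
  exact ((Prime.coprime_iff_not_dvd hp).mpr ha).symm

/-- a second approximation -/
theorem second (t : ℝ) (n m : ℕ) (hn : 2 ≤ n) (hnm : 3 * n ≤ m) (a : ℤ) (ha : ¬ (3 : ℤ) ∣ a)
    (h1 : 1 / 3 ^ m ≤ t - a / 3 ^ n) (h2 : t - a / 3 ^ n ≤ 3 / 3 ^ m) :
    ∃ (A : ℤ) (Q : ℕ), 1 ≤ Q ∧ IsCoprime A (Q : ℤ) ∧ |t - A / Q| ≤ 1 / (Q : ℝ) ^ 2 ∧ Q ≤ 3 ^ (m - n) ∧
      (3 : ℝ) ^ (m - n) ≤ 4 * Q := by
  set X : ℕ := 3 ^ (m - n) with hX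
  have hX0 : 0 < X := by positivity
  obtain ⟨r, hr1, hr2⟩ := Real.exists_rat_abs_sub_le_and_den_le t hX0
  have hQ1 : 1 ≤ r.den := r.pos
  have hQ0 : (0 : ℝ) < r.den := by exact_mod_cast hQ1
  have hXr : (0 : ℝ) < X := by exact_mod_cast hX0
  have hQX : (r.den : ℝ) ≤ X := by exact_mod_cast hr2
  have hr : (r : ℝ) = (r.num : ℝ) / (r.den : ℝ) := by
    exact_mod_cast (Rat.num_div_den r).symm
  have hcop : IsCoprime r.num (r.den : ℤ) := by
    have := r.reduced
    rw [Int.isCoprime_iff_gcd_eq_one]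
    exact this
  have h3n : (0 : ℝ) < 3 ^ n := by positivity
  have h3m : (0 : ℝ) < 3 ^ m := by positivity
  have hXm : (X : ℝ) * 3 ^ n = 3 ^ m := by
    rw [hX]
    push_cast
    rw [← pow_add]
    congr 1
    omega
  rw [hr] at hr1
  refine ⟨r.num, r.den, hQ1, hcop, ?_, hr2, ?_⟩
  · refine hr1.trans ?_
    apply one_div_le_one_div_of_le (by positivity)
    rw [sq]
    apply mul_le_mul_of_nonneg_right _ hQ0.le
    linarith
  · -- lower bound for the denominator
    have hXX : (3 : ℝ) ^ (m - n) = X := by rw [hX]; push_cast; rfl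
    rw [hXX]
    by_cases heq : r.num * 3 ^ n = a * r.den
    · exfalso
      -- 3^n divides the denominator
      have h3 : ((3 : ℤ) ^ n) ∣ (r.den : ℤ) := by
        have h4 : ((3 : ℤ) ^ n) ∣ a * r.den := ⟨r.num, by rw [← heq]; ring⟩
        have h5 := cop_three a ha n
        push_cast at h5
        exact h5.symm.dvd_of_dvd_mul_left h4
      have h4 : 3 ^ n ≤ r.den := Nat.le_of_dvd hQ1 (by exact_mod_cast h3)
      have h4r : (3 : ℝ) ^ n ≤ r.den := by exact_mod_cast h4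
      have h5 : (r.num : ℝ) / r.den = a / 3 ^ n := by
        rw [div_eq_div_iff hQ0.ne' h3n.ne']
        exact_mod_cast heq
      rw [h5] at hr1
      have h6 := h1.trans ((le_abs_self _).trans hr1)
      rw [div_le_div_iff₀ h3m (by positivity), one_mul, one_mul] at h6
      have h7 : ((X : ℝ) + 1) * 3 ^ n ≤ ((X : ℝ) + 1) * r.den := by
        apply mul_le_mul_of_nonneg_left h4r (by positivity)
      have h8 : (0 : ℝ) < 3 ^ n := h3n
      nlinarith
    · have h3 : (1 : ℝ) ≤ |(r.num : ℝ) * 3 ^ n - a * r.den| := by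
        have h4 : (1 : ℤ) ≤ |r.num * 3 ^ n - a * r.den| := by
          apply Int.one_le_abs
          exact sub_ne_zero.mpr heq
        exact_mod_cast h4
      have h4 : (r.num : ℝ) * 3 ^ n - a * r.den = r.den * 3 ^ n * ((t - a / 3 ^ n) - (t - r.num / r.den)) := by
        field_simp
        ring
      rw [h4, abs_mul, abs_of_pos (by positivity)] at h3
      have h5 : |(t - a / 3 ^ n) - (t - (r.num : ℝ) / r.den)| ≤ 3 / 3 ^ m + 1 / (((X : ℕ) + 1) * r.den) := by
        refine (abs_sub _ _).trans ?_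
        apply add_le_add _ hr1
        rw [abs_of_nonneg]
        · exact h2
        · refine le_trans ?_ h1
          positivity
      have h6 : (1 : ℝ) ≤ r.den * 3 ^ n * (3 / 3 ^ m + 1 / (((X : ℕ) + 1) * r.den)) :=
        h3.trans (mul_le_mul_of_nonneg_left h5 (by positivity))
      have h7 : (r.den : ℝ) * 3 ^ n * (3 / 3 ^ m + 1 / (((X : ℕ) + 1) * r.den)) =
          3 * (r.den / X) + 3 ^ n / (X + 1) := by
        rw [← hXm]
        field_simp
      rw [h7] at h6
      have h8 : (3 : ℝ) ^ n / (X + 1) ≤ 1 / 9 := by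
        rw [div_le_iff₀ (by positivity)]
        have h9 : (3 : ℝ) ^ n * 9 ≤ X := by
          rw [hX]
          push_cast
          have : (9 : ℝ) = 3 ^ 2 := by norm_num
          rw [this, ← pow_add]
          exact pow_le_pow_right₀ (by norm_num) (by omega)
        linarith
      have h9 : 8 / 27 ≤ (r.den : ℝ) / X := by linarith
      rw [le_div_iff₀ hXr] at h9
      linarith

theorem pow_rpow (x : ℝ) (n : ℕ) : (3 : ℝ) ^ n = (3 : ℝ) ^ (n : ℝ) := (Real.rpow_natCast _ _).symm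

/-- the upper bound -/
theorem upper {τ : ℝ} {n0 : ℕ} (hB : Big τ n0) (t : ℝ) (ht : Good τ n0 t) (η : ℝ) (hη : 0 < η) :
    ∃ C : ℝ, 0 < C ∧ ∀ N : ℕ, 1 ≤ N → ‖sm 2 N t 0‖ ^ 2 ≤ C * (N : ℝ) ^ η * (N : ℝ) ^ (2 * (τ / (1 + τ))) := by
  obtain ⟨C, hC0, hC⟩ := weyl2 1 η le_rfl hη
  have hτ := hB.1
  set f : ℕ → ℝ := fun k => nn τ n0 k * (1 + τ) / (2 * τ) with hf
  have hfac : 0 < (1 + τ) / (2 * τ) := by positivity
  have hfac2 : 1 / 2 ≤ (1 + τ) / (2 * τ) := by
    rw [div_le_div_iff₀ (by norm_num) (by positivity)]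
    linarith
  refine ⟨9 * C + (3 : ℝ) ^ (2 * f 0), by positivity, fun N hN => ?_⟩
  have hN1 : (1 : ℝ) ≤ N := by exact_mod_cast hN
  have hN0 : (0 : ℝ) < N := by linarith
  have hNη : 1 ≤ (N : ℝ) ^ η := Real.one_le_rpow hN1 hη.le
  have hNα : 1 ≤ (N : ℝ) ^ (2 * (τ / (1 + τ))) := Real.one_le_rpow hN1 (by positivity)
  have hl3 : 0 < Real.log 3 := Real.log_pos (by norm_num)
  set L : ℝ := Real.log N / Real.log 3 with hL
  have hNL : (N : ℝ) = 3 ^ L := by
    rw [hL, Real.rpow_def_of_pos (by norm_num), mul_div_cancel₀ _ hl3.ne', Real.exp_log hN0]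
  have hL0 : 0 ≤ L := div_nonneg (Real.log_nonneg hN1) hl3.le
  have hmono3 : ∀ {x y : ℝ}, x ≤ y → (3 : ℝ) ^ x ≤ 3 ^ y := fun h =>
    Real.rpow_le_rpow_of_exponent_le (by norm_num) h
  have hNα2 : (N : ℝ) ^ (2 * (τ / (1 + τ))) = 3 ^ (2 * (τ / (1 + τ)) * L) := by
    conv_lhs => rw [hNL]
    rw [← Real.rpow_mul (by norm_num)]
    congr 1
    ring
  have hNsq : (N : ℝ) ^ 2 = 3 ^ (2 * L) := by
    conv_lhs => rw [hNL]
    rw [← Real.rpow_natCast, ← Real.rpow_mul (by norm_num)]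
    congr 1
    push_cast
    ring
  have hα : τ / (1 + τ) = 1 - 1 / (1 + τ) := by field_simp; ring
  have hNle : (N : ℝ) ≤ (N : ℝ) ^ (2 * (τ / (1 + τ))) := by
    rw [hNα2]
    conv_lhs => rw [hNL]
    apply hmono3
    have h1 : 1 ≤ 2 * (τ / (1 + τ)) := by
      rw [← mul_div_assoc, le_div_iff₀ (by positivity)]
      linarith
    nlinarith
  rcases lt_or_ge L (f 0) with hsmall | hbig
  · -- few small N
    have h1 : ‖sm 2 N t 0‖ ≤ N := sm_le 2 N t 0
    have h2 : ‖sm 2 N t 0‖ ^ 2 ≤ (3 : ℝ) ^ (2 * f 0) := by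
      calc ‖sm 2 N t 0‖ ^ 2 ≤ (N : ℝ) ^ 2 := pow_le_pow_left₀ (norm_nonneg _) h1 2
        _ = 3 ^ (2 * L) := hNsq
        _ ≤ 3 ^ (2 * f 0) := hmono3 (by linarith)
    have h3 : (3 : ℝ) ^ (2 * f 0) ≤ 9 * C + (3 : ℝ) ^ (2 * f 0) := by linarith
    have h4 : 0 < 9 * C + (3 : ℝ) ^ (2 * f 0) := by positivity
    calc ‖sm 2 N t 0‖ ^ 2 ≤ 9 * C + (3 : ℝ) ^ (2 * f 0) := h2.trans h3
      _ = (9 * C + (3 : ℝ) ^ (2 * f 0)) * 1 * 1 := by ring
      _ ≤ (9 * C + (3 : ℝ) ^ (2 * f 0)) * (N : ℝ) ^ η * (N : ℝ) ^ (2 * (τ / (1 + τ))) := by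
          gcongr
  · -- the block of N
    have hex : ∃ k, L < f k := by
      obtain ⟨k, hk⟩ := exists_nat_gt (2 * L)
      refine ⟨k, ?_⟩
      have h1 : k < 4 ^ k := Nat.lt_pow_self (by norm_num)
      have h2 := nn_growth hB k
      have h3 : (k : ℝ) ≤ nn τ n0 k := by
        have : k ≤ nn τ n0 k := by omega
        exact_mod_cast this
      have h4 : (nn τ n0 k : ℝ) * (1 / 2) ≤ nn τ n0 k * ((1 + τ) / (2 * τ)) :=
        mul_le_mul_of_nonneg_left hfac2 (by positivity)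
      rw [hf]
      simp only
      rw [mul_div_assoc]
      linarith
    set k' := Nat.find hex with hk'
    have hk1 : L < f k' := Nat.find_spec hex
    have hk0 : k' ≠ 0 := by
      intro h
      rw [h] at hk1
      linarith
    obtain ⟨k, hk⟩ := Nat.exists_eq_succ_of_ne_zero hk0
    have hk2 : f k ≤ L := by
      have := Nat.find_min hex (m := k) (by rw [← hk', hk]; exact Nat.lt_succ_self k)
      linarith
    rw [hk] at hk1
    set n := nn τ n0 k with hn
    set m := mm τ n0 k with hm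
    have hfk : f k = (n : ℝ) * (1 + τ) / (2 * τ) := rfl
    have hfk1 : f (k + 1) = (nn τ n0 (k + 1) : ℝ) * (1 + τ) / (2 * τ) := rfl
    obtain ⟨a, ha, ha1, ha2⟩ := ht k
    rw [← hn, ← hm] at ha1 ha2
    have hn32 : (32 : ℝ) ≤ n := nn_ge32 hB k
    have hn32' : 32 ≤ n := by exact_mod_cast hn32
    have hnm : 3 * n ≤ m := nn_lt_mm hB k
    have hmge : (1 + τ) * n ≤ m := mm_ge hB k
    have hmle : (m : ℝ) ≤ (1 + τ) * n + 1 := mm_le hB k
    have hn1 : (nn τ n0 (k + 1) : ℝ) ≤ τ ^ 2 * n := nn_succ_le_sq hB k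
    have hLn : (n : ℝ) / 2 ≤ L := by
      rw [hfk, mul_div_assoc] at hk2
      have h4 : (n : ℝ) * (1 / 2) ≤ n * ((1 + τ) / (2 * τ)) :=
        mul_le_mul_of_nonneg_left hfac2 (by positivity)
      linarith
    have hk2' : (n : ℝ) ≤ 2 * (τ / (1 + τ)) * L := by
      rw [hfk, div_le_iff₀ (by positivity)] at hk2
      have : 2 * (τ / (1 + τ)) * L = (L * (2 * τ)) / (1 + τ) := by ring
      rw [this, le_div_iff₀ (by positivity)]
      exact hk2
    have hfinal : ∀ P : ℝ, ‖sm 2 N t 0‖ ^ 2 ≤ C * (N : ℝ) ^ η * P →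
        P ≤ 9 * (N : ℝ) ^ (2 * (τ / (1 + τ))) →
        ‖sm 2 N t 0‖ ^ 2 ≤ (9 * C + (3 : ℝ) ^ (2 * f 0)) * (N : ℝ) ^ η * (N : ℝ) ^ (2 * (τ / (1 + τ))) := by
      intro P h1 h2
      have h3 : (0 : ℝ) < 3 ^ (2 * f 0) := by positivity
      calc ‖sm 2 N t 0‖ ^ 2 ≤ C * (N : ℝ) ^ η * P := h1
        _ ≤ C * (N : ℝ) ^ η * (9 * (N : ℝ) ^ (2 * (τ / (1 + τ)))) := by
            apply mul_le_mul_of_nonneg_left h2 (by positivity)
        _ = (9 * C) * (N : ℝ) ^ η * (N : ℝ) ^ (2 * (τ / (1 + τ))) := by ring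
        _ ≤ _ := by
            gcongr
            linarith
    rcases le_or_gt (2 * L) m with hI | hII
    · -- case I
      have hq : ((3 ^ n : ℕ) : ℝ) = 3 ^ (n : ℝ) := by
        push_cast
        exact (Real.rpow_natCast _ _).symm
      have hW := hC N (3 ^ n) hN (Nat.one_le_pow _ _ (by norm_num)) (by
        rw [one_mul, hNsq, hq]
        apply hmono3
        linarith) a t (cop_three a ha n) (by
        push_cast
        rw [abs_of_nonneg (le_trans (by positivity) ha1)]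
        refine ha2.trans ?_
        rw [← pow_mul, div_le_div_iff₀ (by positivity) (by positivity), one_mul, ← pow_succ']
        exact pow_le_pow_right₀ (by norm_num) (by omega))
      apply hfinal _ hW
      rw [hq, hNsq, ← Real.rpow_sub (by norm_num)]
      have h1 : (3 : ℝ) ^ (2 * L - n) ≤ 3 * (N : ℝ) ^ (2 * (τ / (1 + τ))) := by
        rw [hNα2]
        have h2 : (3 : ℝ) * 3 ^ (2 * (τ / (1 + τ)) * L) = 3 ^ (1 + 2 * (τ / (1 + τ)) * L) := by
          rw [Real.rpow_add (by norm_num), Real.rpow_one]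
        rw [h2]
        apply hmono3
        rw [hα]
        have h3 : 2 * L * (1 / (1 + τ)) ≤ n + 1 := by
          rw [mul_one_div, div_le_iff₀ (by positivity)]
          nlinarith
        nlinarith
      have h2 : (3 : ℝ) ^ (n : ℝ) ≤ (N : ℝ) ^ (2 * (τ / (1 + τ))) := by
        rw [hNα2]
        exact hmono3 hk2'
      linarith
    · -- case II
      obtain ⟨A, Q, hQ1, hcop, hap, hQX, hXQ⟩ := second t n m (by omega) hnm a ha ha1 ha2
      have hQ0 : (0 : ℝ) < Q := by exact_mod_cast hQ1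
      have hX : (3 : ℝ) ^ (m - n) = 3 ^ ((m : ℝ) - n) := by
        rw [← Real.rpow_natCast]
        congr 1
        rw [Nat.cast_sub (by omega)]
      have hQX' : (Q : ℝ) ≤ 3 ^ ((m : ℝ) - n) := by
        rw [← hX]
        exact_mod_cast hQX
      rw [hX] at hXQ
      have hW := hC N Q hN hQ1 (by
        rw [one_mul, hNsq]
        refine hQX'.trans (hmono3 ?_)
        linarith) A t hcop hap
      apply hfinal _ hW
      have h1 : (N : ℝ) ^ 2 / Q ≤ 4 * (N : ℝ) ^ (2 * (τ / (1 + τ))) := by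
        have h2 : (N : ℝ) ^ 2 / Q ≤ 4 * ((N : ℝ) ^ 2 / 3 ^ ((m : ℝ) - n)) := by
          rw [div_le_iff₀ hQ0, mul_assoc, div_mul_eq_mul_div, mul_div_assoc']
          rw [le_div_iff₀ (by positivity)]
          have h3 : 0 ≤ (N : ℝ) ^ 2 := by positivity
          nlinarith
        refine h2.trans ?_
        apply mul_le_mul_of_nonneg_left _ (by norm_num)
        rw [hNsq, ← Real.rpow_sub (by norm_num), hNα2]
        apply hmono3
        rw [hα]
        have h3 : 2 * L * (1 / (1 + τ)) ≤ m - n := by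
          rw [mul_one_div, div_le_iff₀ (by positivity)]
          rw [hfk1, lt_div_iff₀ (by positivity)] at hk1
          have h4 : L * (2 * τ) ≤ τ ^ 2 * n * (1 + τ) :=
            hk1.le.trans (mul_le_mul_of_nonneg_right hn1 (by positivity))
          have h5 : τ * (2 * L) ≤ τ * (τ * n * (1 + τ)) := by nlinarith
          have h6 : 2 * L ≤ τ * n * (1 + τ) := le_of_mul_le_mul_left h5 (by positivity)
          have h7 : τ * n ≤ (m : ℝ) - n := by linarith
          nlinarith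
        nlinarith
      have h2 : (Q : ℝ) ≤ 3 * (N : ℝ) ^ (2 * (τ / (1 + τ))) := by
        refine hQX'.trans ?_
        rw [hNα2]
        have h2 : (3 : ℝ) * 3 ^ (2 * (τ / (1 + τ)) * L) = 3 ^ (1 + 2 * (τ / (1 + τ)) * L) := by
          rw [Real.rpow_add (by norm_num), Real.rpow_one]
        rw [h2]
        apply hmono3
        have h3 : (m : ℝ) * (τ / (1 + τ)) ≤ 2 * (τ / (1 + τ)) * L := by
          have : 0 ≤ τ / (1 + τ) := by positivity
          nlinarith
        have h4 : (m : ℝ) - n ≤ m * (τ / (1 + τ)) + 1 := by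
          rw [hα]
          have h5 : (m : ℝ) * (1 / (1 + τ)) ≤ n + 1 := by
            rw [mul_one_div, div_le_iff₀ (by positivity)]
            nlinarith
          linarith
        linarith
      linarith

/-- the lower bound, infinitely often -/
theorem lower_often {τ : ℝ} {n0 : ℕ} (hB : Big τ n0) (t : ℝ) (ht : Good τ n0 t) (K : ℕ) :
    ∃ N : ℕ, K ≤ N ∧ (1 / 80) * (N : ℝ) ^ (τ / (1 + τ)) ≤ ‖sm 2 N t 0‖ := by
  have hτ := hB.1
  -- choose k large
  obtain ⟨k, hkK⟩ : ∃ k : ℕ, K + 10 + 10 / (τ - 2) ≤ (k : ℝ) := exists_nat_ge _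
  have hτ2 : 0 < τ - 2 := by linarith
  have hdiv : 0 < 10 / (τ - 2) := by positivity
  set n := nn τ n0 k with hn
  set m := mm τ n0 k with hm
  have hkn : (k : ℝ) ≤ n := by
    have h1 : k < 4 ^ k := Nat.lt_pow_self (by norm_num)
    have h2 := nn_growth hB k
    have : k ≤ nn τ n0 k := by omega
    exact_mod_cast this
  obtain ⟨a, ha, ha1, ha2⟩ := ht k
  rw [← hn, ← hm] at ha1 ha2
  have hn32 : (32 : ℝ) ≤ n := nn_ge32 hB k
  have hnm : 3 * n ≤ m := nn_lt_mm hB k
  have hmge : (1 + τ) * n ≤ m := mm_ge hB k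
  obtain ⟨h, hh⟩ := nn_even τ n0 k
  rw [← hn] at hh
  have h9 : (9 : ℕ) ^ h = 3 ^ n := by
    rw [hh, pow_mul]; norm_num
  have h9r : (9 : ℝ) ^ h = 3 ^ n := by
    rw [hh, pow_mul]; norm_num
  have hmono3 : ∀ {x y : ℝ}, x ≤ y → (3 : ℝ) ^ x ≤ 3 ^ y := fun h =>
    Real.rpow_le_rpow_of_exponent_le (by norm_num) h
  set R : ℝ := 3 ^ ((m : ℝ) / 2) with hR
  have hR0 : 0 < R := by positivity
  have hR2 : R ^ 2 = 3 ^ m := by
    rw [hR, ← Real.rpow_natCast, ← Real.rpow_mul (by norm_num), ← Real.rpow_natCast]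
    congr 1
    push_cast
    ring
  set M : ℕ := ⌊R / (20 * 3 ^ n)⌋₊ with hM
  have h3n : (0 : ℝ) < 3 ^ n := by positivity
  have hM1 : (M : ℝ) ≤ R / (20 * 3 ^ n) := Nat.floor_le (by positivity)
  have hM2 : R / (20 * 3 ^ n) < M + 1 := Nat.lt_floor_add_one _
  have h3nr : (3 : ℝ) ^ n = 3 ^ (n : ℝ) := (Real.rpow_natCast _ _).symm
  have hτn : 10 ≤ (τ - 2) * n := by
    have h1 : 10 / (τ - 2) ≤ n := by
      have : (0 : ℝ) ≤ K := by positivity
      linarith
    rw [div_le_iff₀ hτ2] at h1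
    linarith
  -- R / 3^n is large
  have hRn : 243 ≤ R / 3 ^ n := by
    rw [h3nr, hR, ← Real.rpow_sub (by norm_num)]
    have h1 : (243 : ℝ) = 3 ^ (5 : ℝ) := by norm_num
    rw [h1]
    apply hmono3
    nlinarith
  have hRn2 : R / (20 * 3 ^ n) = (R / 3 ^ n) / 20 := by field_simp
  rw [hRn2] at hM1 hM2
  have hM3 : (R / 3 ^ n) / 40 ≤ M := by linarith
  refine ⟨M * 9 ^ h, ?_, ?_⟩
  · rw [h9]
    have h1 : 1 ≤ M := by
      have : (0 : ℝ) < M := by linarith
      exact_mod_cast this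
    have h2 : K ≤ n := by
      have : (K : ℝ) ≤ n := by linarith
      exact_mod_cast this
    have h3 : n < 3 ^ n := Nat.lt_pow_self (by norm_num)
    calc K ≤ 3 ^ n := by omega
      _ = 1 * 3 ^ n := (one_mul _).symm
      _ ≤ M * 3 ^ n := Nat.mul_le_mul_right _ h1
  · have hNR : ((M * 9 ^ h : ℕ) : ℝ) ≤ R / 20 := by
      rw [h9]
      push_cast
      calc (M : ℝ) * 3 ^ n ≤ ((R / 3 ^ n) / 20) * 3 ^ n := mul_le_mul_of_nonneg_right hM1 h3n.le
        _ = R / 20 := by field_simp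
    have hβ : |t - a / 9 ^ h| * ((M * 9 ^ h : ℕ) : ℝ) ^ 2 ≤ 1 / 100 := by
      rw [h9r, abs_of_nonneg (le_trans (by positivity) ha1)]
      calc (t - a / 3 ^ n) * ((M * 9 ^ h : ℕ) : ℝ) ^ 2 ≤ (3 / 3 ^ m) * (R / 20) ^ 2 := by
            apply mul_le_mul ha2 (pow_le_pow_left₀ (by positivity) hNR 2) (by positivity) (by positivity)
        _ = 3 / 400 := by
            rw [div_pow, hR2]
            field_simp
            norm_num
        _ ≤ 1 / 100 := by norm_num
    have hlow := lower a ha h M (t - a / 9 ^ h) hβ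
    have ht' : (a : ℝ) / 9 ^ h + (t - a / 9 ^ h) = t := by ring
    rw [ht'] at hlow
    refine le_trans ?_ hlow
    -- compare
    have h3h : ((3 : ℝ) ^ h) = 3 ^ ((n : ℝ) / 2) := by
      rw [← Real.rpow_natCast]
      congr 1
      rw [hh]
      push_cast
      ring
    set Z : ℝ := 3 ^ (((m : ℝ) - n) / 2) with hZ
    have hZ0 : 0 < Z := by positivity
    have h1 : Z / 40 ≤ (M : ℝ) * 3 ^ h := by
      rw [h3h]
      have h2 : Z / 40 = ((R / 3 ^ n) / 40) * 3 ^ ((n : ℝ) / 2) := by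
        rw [hZ, hR, h3nr, ← Real.rpow_sub (by norm_num), div_mul_eq_mul_div, ← Real.rpow_add (by norm_num)]
        congr 2
        ring
      rw [h2]
      exact mul_le_mul_of_nonneg_right hM3 (by positivity)
    have h2 : (9 : ℝ) ^ h ≤ Z / 243 := by
      rw [h9r, h3nr, le_div_iff₀ (by norm_num)]
      have h3 : (243 : ℝ) = 3 ^ (5 : ℝ) := by norm_num
      rw [h3, hZ, ← Real.rpow_add (by norm_num)]
      apply hmono3
      nlinarith
    have h3 : ((M * 9 ^ h : ℕ) : ℝ) ^ (τ / (1 + τ)) ≤ Z := by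
      calc ((M * 9 ^ h : ℕ) : ℝ) ^ (τ / (1 + τ)) ≤ R ^ (τ / (1 + τ)) := by
            apply Real.rpow_le_rpow (by positivity) _ (by positivity)
            linarith
        _ = 3 ^ ((m : ℝ) / 2 * (τ / (1 + τ))) := by
            rw [hR, ← Real.rpow_mul (by norm_num)]
        _ ≤ Z := by
            rw [hZ]
            apply hmono3
            have hα : τ / (1 + τ) = 1 - 1 / (1 + τ) := by field_simp; ring
            have h4 : (n : ℝ) ≤ m * (1 / (1 + τ)) := by
              rw [mul_one_div, le_div_iff₀ (by positivity)]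
              linarith
            rw [hα]
            nlinarith
    linarith

end Pool.Agent.W2helper73.WG
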