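import Pool.Agent.W2helper73.WG.Dim

/-! # the two sequences of places, and the numbers with prescribed good approximations -/

set_option autoImplicit false

open Finset

namespace Pool.Agent.W2helper73.WG

/-- the places `n_k` -/
noncomputable def nn (τ : ℝ) (n0 : ℕ) : ℕ → ℕ
  | 0 => 2 * n0
  | k + 1 => 2 * ⌈τ * nn τ n0 k⌉₊

/-- the places `m_k` -/
noncomputable def mm (τ : ℝ) (n0 k : ℕ) : ℕ := ⌈(1 + τ) * nn τ n0 k⌉₊

theorem nn_even (τ : ℝ) (n0 k : ℕ) : ∃ h, nn τ n0 k = 2 * h := by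
  cases k with
  | zero => exact ⟨_, rfl⟩
  | succ k => exact ⟨_, rfl⟩

/-- `n0` is large enough in terms of `τ` -/
def Big (τ : ℝ) (n0 : ℕ) : Prop := 2 < τ ∧ 16 ≤ n0 ∧ 2 ≤ (n0 : ℝ) * (τ * (τ - 2))

theorem exists_big (τ : ℝ) (hτ : 2 < τ) : ∃ n0, Big τ n0 := by
  have h1 : 0 < τ * (τ - 2) := by nlinarith
  obtain ⟨n, hn⟩ := exists_nat_ge (2 / (τ * (τ - 2)))
  refine ⟨n + 16, hτ, by omega, ?_⟩
  rw [div_le_iff₀ h1] at hn
  push_cast
  nlinarith

section
variable {τ : ℝ} {n0 : ℕ} (hB : Big τ n0)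
include hB

theorem nn_succ_ge (k : ℕ) : 2 * τ * nn τ n0 k ≤ nn τ n0 (k + 1) := by
  have h1 := Nat.le_ceil (τ * nn τ n0 k)
  rw [nn]
  push_cast
  linarith

theorem nn_succ_le (k : ℕ) : (nn τ n0 (k + 1) : ℝ) ≤ 2 * τ * nn τ n0 k + 2 := by
  have h0 : 0 ≤ τ * nn τ n0 k := by
    have := hB.1
    positivity
  have h1 := Nat.ceil_lt_add_one h0
  rw [nn]
  push_cast
  linarith

theorem nn_ge (k : ℕ) : 2 * (n0 : ℝ) ≤ nn τ n0 k := by
  induction k with
  | zero => rw [nn]; push_cast; linarith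
  | succ k ih =>
    have h1 := nn_succ_ge hB k
    have h2 := hB.1
    have h3 : (0 : ℝ) ≤ nn τ n0 k := by positivity
    nlinarith

theorem nn_ge32 (k : ℕ) : (32 : ℝ) ≤ nn τ n0 k := by
  have h1 := nn_ge hB k
  have h2 : (16 : ℝ) ≤ n0 := by exact_mod_cast hB.2.1
  linarith

theorem nn_succ_le_sq (k : ℕ) : (nn τ n0 (k + 1) : ℝ) ≤ τ ^ 2 * nn τ n0 k := by
  have h1 := nn_succ_le hB k
  have h2 := nn_ge hB k
  have h3 := hB.2.2
  have h4 := hB.1
  have h5 : 0 < τ * (τ - 2) := by nlinarith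
  have h6 : (n0 : ℝ) * (τ * (τ - 2)) ≤ nn τ n0 k * (τ * (τ - 2)) := by
    apply mul_le_mul_of_nonneg_right _ h5.le
    have : (0 : ℝ) ≤ n0 := by positivity
    linarith
  nlinarith

theorem mm_ge (k : ℕ) : (1 + τ) * nn τ n0 k ≤ mm τ n0 k := Nat.le_ceil _

theorem mm_le (k : ℕ) : (mm τ n0 k : ℝ) ≤ (1 + τ) * nn τ n0 k + 1 := by
  have h0 : 0 ≤ (1 + τ) * nn τ n0 k := by
    have := hB.1
    positivity
  exact (Nat.ceil_lt_add_one h0).le

theorem nn_lt_mm (k : ℕ) : 3 * nn τ n0 k ≤ mm τ n0 k := by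
  have h1 := mm_ge hB k
  have h2 := hB.1
  have h3 := nn_ge32 hB k
  have : (3 : ℝ) * nn τ n0 k ≤ mm τ n0 k := by nlinarith
  exact_mod_cast this

theorem mm_lt_nn (k : ℕ) : mm τ n0 k + 2 < nn τ n0 (k + 1) := by
  have h1 := mm_le hB k
  have h2 := hB.1
  have h3 := nn_ge32 hB k
  have h4 := nn_succ_ge hB k
  have : (mm τ n0 k : ℝ) + 2 < nn τ n0 (k + 1) := by nlinarith
  exact_mod_cast this

theorem nn_mono : StrictMono (nn τ n0) := by
  apply strictMono_nat_of_lt_succ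
  intro k
  have h1 := nn_lt_mm hB k
  have h2 := mm_lt_nn hB k
  omega

theorem nn_growth (k : ℕ) : 4 ^ k ≤ nn τ n0 k := by
  induction k with
  | zero =>
    have := nn_ge32 hB 0
    have : 32 ≤ nn τ n0 0 := by exact_mod_cast this
    omega
  | succ k ih =>
    have h1 := nn_succ_ge hB k
    have h2 := hB.1
    have h3 : (4 : ℝ) * nn τ n0 k ≤ nn τ n0 (k + 1) := by
      have := nn_ge32 hB k
      nlinarith
    have h4 : 4 * nn τ n0 k ≤ nn τ n0 (k + 1) := by exact_mod_cast h3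
    rw [pow_succ]
    omega

end

/-- the free places -/
def Fr (τ : ℝ) (n0 : ℕ) (i : ℕ) : Prop := ∃ k, mm τ n0 k ≤ i ∧ i + 1 < nn τ n0 (k + 1)

/-- the fixed digits -/
noncomputable def cc (τ : ℝ) (n0 : ℕ) (i : ℕ) : Fin 3 :=
  open Classical in if ∃ k, i + 1 = nn τ n0 k ∨ i + 1 = mm τ n0 k then 1 else 0

theorem cc_le (τ : ℝ) (n0 i : ℕ) : (cc τ n0 i : ℕ) ≤ 1 := by
  unfold cc
  split_ifs
  · simp
  · simp

/-- `t` has the good approximations `a / 3^(n_k)` -/
def Good (τ : ℝ) (n0 : ℕ) (t : ℝ) : Prop := ∀ k, ∃ a : ℤ, ¬ (3 : ℤ) ∣ a ∧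
  1 / 3 ^ (mm τ n0 k) ≤ t - a / 3 ^ (nn τ n0 k) ∧ t - a / 3 ^ (nn τ n0 k) ≤ 3 / 3 ^ (mm τ n0 k)

theorem good_of_digits {τ : ℝ} {n0 : ℕ} (hB : Big τ n0) (w : ℕ → Fin 3)
    (h1 : ∀ k i, i + 1 = nn τ n0 k → w i = 1) (h2 : ∀ k i, i + 1 = mm τ n0 k → w i = 1)
    (h3 : ∀ k i, nn τ n0 k ≤ i → i + 1 < mm τ n0 k → w i = 0) : Good τ n0 (Real.ofDigits w) := by
  intro k
  set n := nn τ n0 k with hn
  set m := mm τ n0 k with hm
  have hn32 : 32 ≤ n := by
    have := nn_ge32 hB k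
    exact_mod_cast this
  have hnm : 3 * n ≤ m := nn_lt_mm hB k
  set a : ℤ := ∑ i ∈ range n, (w i : ℤ) * 3 ^ (n - 1 - i) with ha
  have ha1 : (a : ℝ) / 3 ^ n = ∑ i ∈ range n, Real.ofDigitsTerm w i := by
    rw [ha]
    push_cast
    rw [Finset.sum_div]
    apply Finset.sum_congr rfl
    intro i hi
    rw [Finset.mem_range] at hi
    unfold Real.ofDigitsTerm
    have h4 : (3 : ℝ) ^ n = 3 ^ (n - 1 - i) * 3 ^ (i + 1) := by
      rw [← pow_add]; congr 1; omega
    rw [h4]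
    push_cast
    field_simp
  refine ⟨a, ?_, ?_⟩
  · -- last digit is 1
    have h4 : a = (∑ i ∈ range (n - 1), (w i : ℤ) * 3 ^ (n - 1 - i)) + 1 := by
      rw [ha]
      have h5 : n = (n - 1) + 1 := by omega
      conv_lhs => rw [h5]
      rw [Finset.sum_range_succ]
      congr 1
      have h6 : w (n - 1) = 1 := h1 k (n - 1) (by omega)
      rw [h6]
      simp
    intro h5
    have h6 : (3 : ℤ) ∣ ∑ i ∈ range (n - 1), (w i : ℤ) * 3 ^ (n - 1 - i) := by
      apply Finset.dvd_sum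
      intro i hi
      rw [Finset.mem_range] at hi
      apply Dvd.dvd.mul_left
      exact dvd_pow_self 3 (by omega)
    rw [h4] at h5
    have h7 := (Int.dvd_add_right h6).mp h5
    norm_num at h7
  · have h4 : Real.ofDigits w - (a : ℝ) / 3 ^ n =
        ((3 : ℝ) ^ (m - 1))⁻¹ * Real.ofDigits (fun i => w (i + (m - 1))) := by
      have h5 := Real.ofDigits_eq_sum_add_ofDigits w (m - 1)
      have h6 : ∑ i ∈ range (m - 1), Real.ofDigitsTerm w i = ∑ i ∈ range n, Real.ofDigitsTerm w i := by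
        symm
        apply Finset.sum_subset
        · intro i hi
          rw [Finset.mem_range] at hi ⊢
          omega
        · intro i hi hi2
          rw [Finset.mem_range] at hi hi2
          unfold Real.ofDigitsTerm
          rw [h3 k i (by omega) (by omega)]
          simp
      rw [h5, h6, ha1]
      push_cast
      ring
    rw [h4]
    have h5 : Real.ofDigits (fun i => w (i + (m - 1))) ≤ 1 := Real.ofDigits_le_one _
    have h6 : 1 / 3 ≤ Real.ofDigits (fun i => w (i + (m - 1))) := by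
      rw [Real.ofDigits_eq_sum_add_ofDigits _ 1]
      have h7 := Real.ofDigits_nonneg (fun i => (fun i => w (i + (m - 1))) (i + 1))
      have h8 : Real.ofDigitsTerm (fun i => w (i + (m - 1))) 0 = 1 / 3 := by
        unfold Real.ofDigitsTerm
        simp only [zero_add]
        rw [h2 k (m - 1) (by omega)]
        norm_num
      rw [Finset.sum_range_one, h8]
      have h9 : 0 ≤ (((3 : ℕ) : ℝ) ^ 1)⁻¹ * Real.ofDigits (fun i => (fun i => w (i + (m - 1))) (i + 1)) := by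
        positivity
      linarith
    have h7 : (3 : ℝ) ^ m = 3 ^ (m - 1) * 3 := by
      rw [← pow_succ]; congr 1; omega
    have h8 : (0 : ℝ) < ((3 : ℝ) ^ (m - 1))⁻¹ := by positivity
    constructor
    · have h9 : 1 / (3 : ℝ) ^ m = ((3 : ℝ) ^ (m - 1))⁻¹ * (1 / 3) := by
        rw [h7]; field_simp
      rw [h9]
      exact mul_le_mul_of_nonneg_left h6 h8.le
    · have h9 : 3 / (3 : ℝ) ^ m = ((3 : ℝ) ^ (m - 1))⁻¹ * 1 := by
        rw [h7]; field_simp
      rw [h9]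
      exact mul_le_mul_of_nonneg_left h5 h8.le

open Classical in
theorem good_dig {τ : ℝ} {n0 : ℕ} (hB : Big τ n0) (b : ℕ → Fin 2) :
    Good τ n0 (Real.ofDigits (dig (Fr τ n0) (cc τ n0) b)) := by
  have hmono := nn_mono hB
  have hmm : ∀ k, nn τ n0 k < mm τ n0 k := fun k => by
    have h1 := nn_lt_mm hB k
    have h2 := nn_ge32 hB k
    have h3 : 32 ≤ nn τ n0 k := by exact_mod_cast h2
    omega
  have hmn : ∀ k, mm τ n0 k + 2 < nn τ n0 (k + 1) := mm_lt_nn hB
  have hle : ∀ {j k : ℕ}, j < k → nn τ n0 (j + 1) ≤ nn τ n0 k := fun h => hmono.monotone h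
  have key : ∀ i, ¬ Fr τ n0 i → dig (Fr τ n0) (cc τ n0) b i = cc τ n0 i := by
    intro i h
    unfold dig
    rw [if_neg h]
  apply good_of_digits hB
  · intro k i hi
    have h4 : ¬ Fr τ n0 i := by
      rintro ⟨j, hj1, hj2⟩
      have h5 : nn τ n0 k < nn τ n0 (j + 1) := by omega
      have h6 : k < j + 1 := hmono.lt_iff_lt.mp h5
      have h7 : nn τ n0 k ≤ nn τ n0 j := hmono.monotone (by omega)
      have h8 := hmm j
      omega
    rw [key i h4]
    unfold cc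
    rw [if_pos ⟨k, Or.inl hi⟩]
  · intro k i hi
    have h4 : ¬ Fr τ n0 i := by
      rintro ⟨j, hj1, hj2⟩
      have h5 : mm τ n0 j < mm τ n0 k := by omega
      rcases lt_trichotomy j k with h6 | h6 | h6
      · have h7 := hle h6
        have h8 := hmm k
        omega
      · subst h6; omega
      · have h7 := hle h6
        have h8 := hmm j
        have h9 := hmn k
        omega
    rw [key i h4]
    unfold cc
    rw [if_pos ⟨k, Or.inr hi⟩]
  · intro k i hi1 hi2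
    have h4 : ¬ Fr τ n0 i := by
      rintro ⟨j, hj1, hj2⟩
      rcases lt_trichotomy j k with h6 | h6 | h6
      · have h7 := hle h6
        omega
      · subst h6; omega
      · have h7 := hle h6
        have h8 := hmm j
        have h9 := hmn k
        omega
    rw [key i h4]
    unfold cc
    rw [if_neg]
    rintro ⟨j, hj | hj⟩
    · have h5 : nn τ n0 k < nn τ n0 j := by omega
      have h6 := hle (hmono.lt_iff_lt.mp h5)
      have h7 := hmn k
      omega
    · rcases lt_trichotomy j k with h6 | h6 | h6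
      · have h7 := hle h6
        have h8 := hmn j
        omega
      · subst h6; omega
      · have h7 := hle h6
        have h8 := hmm j
        have h9 := hmn k
        omega

open Classical in
theorem count_ge {τ : ℝ} {n0 : ℕ} (hB : Big τ n0) (k : ℕ) :
    (nn τ n0 (k + 1) : ℝ) / 8 ≤ Nat.count (Fr τ n0) (nn τ n0 (k + 1)) := by
  have h1 : nn τ n0 (k + 1) - 1 - mm τ n0 k ≤ Nat.count (Fr τ n0) (nn τ n0 (k + 1)) := by
    rw [Nat.count_eq_card_filter_range]
    have h2 : (Ico (mm τ n0 k) (nn τ n0 (k + 1) - 1)).card = nn τ n0 (k + 1) - 1 - mm τ n0 k := by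
      rw [Nat.card_Ico]
    rw [← h2]
    apply Finset.card_le_card
    intro i hi
    rw [Finset.mem_Ico] at hi
    rw [Finset.mem_filter, Finset.mem_range]
    exact ⟨by omega, k, hi.1, by omega⟩
  have h2 := mm_lt_nn hB k
  have h3 : (nn τ n0 (k + 1) : ℝ) - 1 - mm τ n0 k ≤ Nat.count (Fr τ n0) (nn τ n0 (k + 1)) := by
    have h4 : nn τ n0 (k + 1) ≤ Nat.count (Fr τ n0) (nn τ n0 (k + 1)) + 1 + mm τ n0 k := by omega
    have h5 : (nn τ n0 (k + 1) : ℝ) ≤ Nat.count (Fr τ n0) (nn τ n0 (k + 1)) + 1 + mm τ n0 k := by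
      exact_mod_cast h4
    linarith
  have h4 := mm_le hB k
  have h5 := nn_succ_ge hB k
  have h6 := nn_ge32 hB k
  have h7 := hB.1
  nlinarith

open Classical in
theorem dim_good {τ : ℝ} {n0 : ℕ} (hB : Big τ n0) :
    0 < dimH (Set.range (fun b : ℕ → Fin 2 => Real.ofDigits (dig (Fr τ n0) (cc τ n0) b))) := by
  set C : ℕ := nn τ n0 1 + ⌈16 * τ ^ 2⌉₊ with hC
  have hC1 : 1 ≤ C := by
    have := nn_ge32 hB 1
    have : 32 ≤ nn τ n0 1 := by exact_mod_cast this
    omega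
  apply dim_pos (Fr τ n0) (cc τ n0) (cc_le τ n0) C hC1
  intro i
  -- the block containing C (i+1)
  have hX1 : nn τ n0 1 ≤ C * (i + 1) := by
    calc nn τ n0 1 ≤ C := by omega
      _ = C * 1 := (mul_one _).symm
      _ ≤ C * (i + 1) := Nat.mul_le_mul_left _ (by omega)
  have hex : ∃ k, C * (i + 1) < nn τ n0 k := by
    refine ⟨C * (i + 1), ?_⟩
    have h1 := nn_growth hB (C * (i + 1))
    have h2 : C * (i + 1) < 4 ^ (C * (i + 1)) := Nat.lt_pow_self (by norm_num)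
    omega
  set k := Nat.find hex with hk
  have hk1 : C * (i + 1) < nn τ n0 k := Nat.find_spec hex
  have hk2 : 2 ≤ k := by
    by_contra h
    have h1 : k ≤ 1 := by omega
    have h2 : nn τ n0 k ≤ nn τ n0 1 := (nn_mono hB).monotone h1
    omega
  obtain ⟨l, hl⟩ : ∃ l, k = l + 2 := ⟨k - 2, by omega⟩
  have hk3 : nn τ n0 (l + 1) ≤ C * (i + 1) := by
    have := Nat.find_min hex (m := l + 1) (by rw [← hk]; omega)
    omega
  rw [hl] at hk1
  have h1 := count_ge hB l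
  have h2 : Nat.count (Fr τ n0) (nn τ n0 (l + 1)) ≤ Nat.count (Fr τ n0) (C * (i + 1)) :=
    Nat.count_monotone _ hk3
  have h3 := nn_succ_le_sq hB (l + 1)
  have h4 : ((C * (i + 1) : ℕ) : ℝ) < nn τ n0 (l + 2) := by exact_mod_cast hk1
  have h5 : 16 * τ ^ 2 ≤ (C : ℝ) := by
    rw [hC]
    push_cast
    have h6 := Nat.le_ceil (16 * τ ^ 2)
    have h7 : (0 : ℝ) ≤ nn τ n0 1 := by positivity
    linarith
  have h6 : 16 * τ ^ 2 * ((i : ℝ) + 1) ≤ ((C * (i + 1) : ℕ) : ℝ) := by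
    push_cast
    apply mul_le_mul_of_nonneg_right h5 (by positivity)
  have hτ2 : 0 < τ ^ 2 := by
    have := hB.1
    positivity
  have h7 : τ ^ 2 * (16 * ((i : ℝ) + 1)) < τ ^ 2 * nn τ n0 (l + 1) := by
    calc τ ^ 2 * (16 * ((i : ℝ) + 1)) = 16 * τ ^ 2 * ((i : ℝ) + 1) := by ring
      _ ≤ ((C * (i + 1) : ℕ) : ℝ) := h6
      _ < nn τ n0 (l + 2) := h4
      _ ≤ _ := h3
  have h8 := lt_of_mul_lt_mul_left h7 hτ2.le
  have h9 : ((Nat.count (Fr τ n0) (nn τ n0 (l + 1)) : ℕ) : ℝ) ≤ (Nat.count (Fr τ n0) (C * (i + 1)) : ℕ) := by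
    exact_mod_cast h2
  have h10 : (i : ℝ) < (Nat.count (Fr τ n0) (C * (i + 1)) : ℕ) := by
    have : (0 : ℝ) ≤ i := by positivity
    linarith
  exact_mod_cast h10

end Pool.Agent.W2helper73.WG
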